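import Pool.Agent.H15.IX.TD

set_option autoImplicit false

/-!
# idx_modules, row DZF: elements of the field generated by the quotients of forms
-/

open Finset Pool.Agent.H15.IX
open MvPolynomial

namespace Pool.Agent.H89.IX

universe u

theorem pf_DZF : T_DZF.{u} := by
  intro V _ r K _ F _ _ deg x y hy
  let S : IntermediateField K F :=
    { carrier := {y | ∃ (A : Fin r → ℤ) (a b : MvPolynomial V K), IsWeightedHomogeneous deg a A ∧
        IsWeightedHomogeneous deg b A ∧ aeval x b ≠ 0 ∧ y = aeval x a / aeval x b}
      mul_mem' := by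
        rintro y y' ⟨A, a, b, ha, hb, hb0, rfl⟩ ⟨A', a', b', ha', hb', hb0', rfl⟩
        refine ⟨A + A', a * a', b * b', ha.mul ha', hb.mul hb', ?_, ?_⟩
        · rw [map_mul]
          exact mul_ne_zero hb0 hb0'
        · rw [map_mul, map_mul, div_mul_div_comm]
      add_mem' := by
        rintro y y' ⟨A, a, b, ha, hb, hb0, rfl⟩ ⟨A', a', b', ha', hb', hb0', rfl⟩
        refine ⟨A + A', a * b' + b * a', b * b', (ha.mul hb').add (hb.mul ha'), hb.mul hb',
          ?_, ?_⟩
        · rw [map_mul]
          exact mul_ne_zero hb0 hb0'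
        · rw [map_add, map_mul, map_mul, map_mul, div_add_div _ _ hb0 hb0']
      algebraMap_mem' := by
        intro c
        refine ⟨0, C c, 1, isWeightedHomogeneous_C _ _, isWeightedHomogeneous_one K _, ?_, ?_⟩
        · rw [map_one]
          exact one_ne_zero
        · rw [map_one, div_one, aeval_C]
      inv_mem' := by
        rintro y ⟨A, a, b, ha, hb, hb0, rfl⟩
        by_cases h : aeval x a = 0
        · refine ⟨0, 0, 1, isWeightedHomogeneous_zero K _ _, isWeightedHomogeneous_one K _,
            ?_, ?_⟩
          · rw [map_one]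
            exact one_ne_zero
          · rw [h, zero_div, inv_zero, map_zero, zero_div]
        · exact ⟨A, b, a, hb, ha, h, inv_div _ _⟩ }
  have hS : Ez K deg x ≤ S := IntermediateField.adjoin_le_iff.2 fun z hz => hz
  exact hS hy

end Pool.Agent.H89.IX
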