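import Pool.Agent.H15.IX.TB

set_option autoImplicit false

/-!
# idx_modules, row LCH: lengths of quotients add up in chains
-/

open Finset Pool.Agent.H15.IX

namespace Pool.Agent.H89.IX

universe u

theorem lch_len {A E : Type u} [CommRing A] [CommRing E] [Algebra A E]
    {L L' L'' : Submodule A E} (h1 : L' ≤ L) (h2 : L'' ≤ L') :
    Module.length A (↥L ⧸ L''.submoduleOf L) =
      Module.length A (↥L' ⧸ L''.submoduleOf L') + Module.length A (↥L ⧸ L'.submoduleOf L) := by
  have hf : L''.submoduleOf L' ≤ (L''.submoduleOf L).comap (Submodule.inclusion h1) := by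
    intro x hx
    exact hx
  have hg : L''.submoduleOf L ≤ (L'.submoduleOf L).comap LinearMap.id := by
    intro x hx
    exact h2 hx
  refine Module.length_eq_add_of_exact
    ((L''.submoduleOf L').mapQ (L''.submoduleOf L) (Submodule.inclusion h1) hf)
    ((L''.submoduleOf L).mapQ (L'.submoduleOf L) LinearMap.id hg) ?_ ?_ ?_
  · refine (injective_iff_map_eq_zero _).2 fun y hy => ?_
    obtain ⟨x, rfl⟩ := Submodule.Quotient.mk_surjective _ y
    have h3 : Submodule.inclusion h1 x ∈ L''.submoduleOf L :=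
      (Submodule.Quotient.mk_eq_zero _).1 hy
    exact (Submodule.Quotient.mk_eq_zero _).2 h3
  · intro y
    obtain ⟨x, rfl⟩ := Submodule.Quotient.mk_surjective _ y
    exact ⟨Submodule.Quotient.mk x, rfl⟩
  · intro y
    obtain ⟨x, rfl⟩ := Submodule.Quotient.mk_surjective _ y
    constructor
    · intro hx
      have h3 : x ∈ L'.submoduleOf L := (Submodule.Quotient.mk_eq_zero _).1 hx
      exact ⟨Submodule.Quotient.mk ⟨(x : E), h3⟩, rfl⟩
    · rintro ⟨z, hz⟩
      obtain ⟨w, rfl⟩ := Submodule.Quotient.mk_surjective _ z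
      have h3 : (Submodule.Quotient.mk (Submodule.inclusion h1 w) :
        ↥L ⧸ L''.submoduleOf L) = Submodule.Quotient.mk x := hz
      rw [← h3]
      exact (Submodule.Quotient.mk_eq_zero _).2 w.2

theorem pf_LCH : T_LCH.{u} := by
  intro A E _ _ _ n L hL hfl
  have hL0 : ∀ n, L n ≤ L 0 := fun n => antitone_nat_of_succ_le hL (Nat.zero_le n)
  have key : ∀ n, Module.length A (↥(L 0) ⧸ (L n).submoduleOf (L 0)) ≠ ⊤ ∧
      ∑ i ∈ range n, lg (L i) (L (i + 1)) = lg (L 0) (L n) := by
    intro n
    induction n with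
    | zero =>
      have h0 : Subsingleton (↥(L 0) ⧸ (L 0).submoduleOf (L 0)) := by
        refine Submodule.Quotient.subsingleton_iff.2 ?_
        exact Submodule.submoduleOf_self _
      have h1 : Module.length A (↥(L 0) ⧸ (L 0).submoduleOf (L 0)) = 0 := Module.length_eq_zero
      refine ⟨by rw [h1]; exact ENat.zero_ne_top, ?_⟩
      rw [Finset.sum_range_zero, lg, h1]
      rfl
    | succ n ih =>
      have h1 := lch_len (hL0 n) (hL n)
      have h2 := Module.length_ne_top_iff.2 (hfl n)
      have h3 : Module.length A (↥(L 0) ⧸ (L (n + 1)).submoduleOf (L 0)) ≠ ⊤ := by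
        rw [h1]
        exact WithTop.add_ne_top.2 ⟨h2, ih.1⟩
      refine ⟨h3, ?_⟩
      rw [Finset.sum_range_succ, ih.2, lg, lg, lg, h1, ENat.toNat_add h2 ih.1]
      push_cast
      ring
  exact (key n).2

end Pool.Agent.H89.IX
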