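import Pool.Agent.H15.IX.TD

set_option autoImplicit false

/-!
# idx_modules, row PTS: valuation rings of the field of quotients of forms of the same degree
-/

open Finset Pool.Agent.H15.IX
open MvPolynomial

namespace Pool.Agent.H89.IX

universe u

section mono

variable {V : Type} [Fintype V] {F : Type u} [Field F]

/-- Laurent monomials -/
noncomputable def lmo (xt : V → Fˣ) (β : V → ℤ) : Fˣ := ∏ v, xt v ^ β v

theorem lmo_add (xt : V → Fˣ) (β β' : V → ℤ) : lmo xt (β + β') = lmo xt β * lmo xt β' := by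
  simp only [lmo, Pi.add_apply, zpow_add, Finset.prod_mul_distrib]

theorem lmo_zero (xt : V → Fˣ) : lmo xt 0 = 1 := by
  simp [lmo]

theorem lmo_nsmul (xt : V → Fˣ) (β : V → ℤ) (n : ℕ) : lmo xt (n • β) = lmo xt β ^ n := by
  induction n with
  | zero => rw [zero_smul, lmo_zero, pow_zero]
  | succ n ih => rw [succ_nsmul, lmo_add, ih, pow_succ]

theorem lmo_sum (xt : V → Fˣ) (n : V → ℕ) (f : V → V → ℤ) (s : Finset V) :
    lmo xt (∑ v ∈ s, n v • f v) = ∏ v ∈ s, lmo xt (f v) ^ n v := by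
  classical
  induction s using Finset.induction_on with
  | empty => rw [Finset.sum_empty, Finset.prod_empty, lmo_zero]
  | insert a s ha ih => rw [Finset.sum_insert ha, Finset.prod_insert ha, lmo_add, lmo_nsmul, ih]

/-- a projection onto a complement of the kernel of a homomorphism to a free group -/
theorem exists_prj {r : ℕ} (d : V → Fin r → ℤ) : ∃ τ : (V → ℤ) →ₗ[ℤ] (V → ℤ),
    (∀ β, ∑ v, τ β v • d v = ∑ v, β v • d v) ∧ ∀ β, ∑ v, β v • d v = 0 → τ β = 0 := by
  classical
  let π : (V → ℤ) →ₗ[ℤ] (Fin r → ℤ) :=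
    { toFun := fun β => ∑ v, β v • d v
      map_add' := fun β β' => by
        simp only [Pi.add_apply, add_smul, Finset.sum_add_distrib]
      map_smul' := fun c β => by
        simp only [Pi.smul_apply, smul_eq_mul, mul_smul, Finset.smul_sum, RingHom.id_apply] }
  obtain ⟨σ, hσ⟩ := Module.projective_lifting_property π.rangeRestrict
    (LinearMap.id : LinearMap.range π →ₗ[ℤ] LinearMap.range π) π.surjective_rangeRestrict
  refine ⟨σ.comp π.rangeRestrict, fun β => ?_, fun β hβ => ?_⟩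
  · have h1 := LinearMap.congr_fun hσ (π.rangeRestrict β)
    exact congrArg Subtype.val h1
  · have h2 : π.rangeRestrict β = 0 := Subtype.ext hβ
    rw [LinearMap.comp_apply, h2, map_zero]

variable {r : ℕ} {K : Type u} [Field K] [Algebra K F]

/-- Laurent monomials of degree zero are quotients of forms of the same degree -/
theorem lmo_mem (deg : V → Fin r → ℤ) (x : V → F)
    (xt : V → Fˣ) (hxt : ∀ v, x v ≠ 0 → (xt v : F) = x v) (hx0 : ∀ v, x v = 0 → xt v = 1)
    (d : V → Fin r → ℤ) (hd : ∀ v, x v ≠ 0 → d v = deg v) (hd0 : ∀ v, x v = 0 → d v = 0)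
    (β : V → ℤ) (hβ : ∑ v, β v • d v = 0) : ((lmo xt β : Fˣ) : F) ∈ Ez K deg x := by
  classical
  obtain ⟨X', hX'⟩ : ∃ X' : V → MvPolynomial V K, ∀ v, X' v = if x v = 0 then 1 else X v :=
    ⟨_, fun v => rfl⟩
  have hw : ∀ v, IsWeightedHomogeneous deg (X' v) (d v) := by
    intro v
    rw [hX' v]
    by_cases h : x v = 0
    · rw [if_pos h, hd0 v h]
      exact isWeightedHomogeneous_one K _
    · rw [if_neg h, hd v h]
      exact isWeightedHomogeneous_X K _ _
  have ha : ∀ v, aeval x (X' v) = (xt v : F) := by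
    intro v
    rw [hX' v]
    by_cases h : x v = 0
    · rw [if_pos h, map_one, hx0 v h, Units.val_one]
    · rw [if_neg h, aeval_X, hxt v h]
  have hpr : ∀ n : V → ℕ, aeval x (∏ v, X' v ^ n v) = ((∏ v, xt v ^ n v : Fˣ) : F) := by
    intro n
    rw [map_prod, Units.coe_prod]
    refine Finset.prod_congr rfl fun v _ => ?_
    rw [map_pow, ha, Units.val_pow_eq_pow_val]
  have hdeg : ∑ v, (-β v).toNat • d v = ∑ v, (β v).toNat • d v := by
    have h1 : ∑ v, (β v).toNat • d v - ∑ v, (-β v).toNat • d v = 0 := by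
      rw [← hβ, ← Finset.sum_sub_distrib]
      refine Finset.sum_congr rfl fun v _ => ?_
      rw [← natCast_zsmul, ← natCast_zsmul, ← sub_smul, Int.toNat_sub_toNat_neg]
    exact (sub_eq_zero.1 h1).symm
  refine IntermediateField.subset_adjoin K _ ⟨∑ v, (β v).toNat • d v,
    ∏ v, X' v ^ (β v).toNat, ∏ v, X' v ^ (-β v).toNat, ?_, ?_, ?_, ?_⟩
  · exact IsWeightedHomogeneous.prod _ _ _ fun v _ => (hw v).pow _
  · rw [← hdeg]
    exact IsWeightedHomogeneous.prod _ _ _ fun v _ => (hw v).pow _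
  · rw [hpr]
    exact Units.ne_zero _
  · rw [hpr, hpr, ← Units.val_div_eq_div_val, ← Finset.prod_div_distrib, lmo]
    refine congrArg _ (Finset.prod_congr rfl fun v _ => ?_)
    rw [← zpow_natCast, ← zpow_natCast, div_eq_mul_inv, ← zpow_sub, Int.toNat_sub_toNat_neg]

/-- the form vanishes at the point with coordinates of degree zero -/
theorem lmo_zer (deg : V → Fin r → ℤ) (x : V → F)
    (xt : V → Fˣ) (hxt : ∀ v, x v ≠ 0 → (xt v : F) = x v)
    (d : V → Fin r → ℤ) (hd : ∀ v, x v ≠ 0 → d v = deg v)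
    (τ : (V → ℤ) →ₗ[ℤ] (V → ℤ)) (hτ : ∀ β, ∑ v, β v • d v = 0 → τ β = 0)
    (e : V → V → ℤ) (he1 : ∀ v, e v v = 1) (he0 : ∀ v u, u ≠ v → e v u = 0)
    (Y : V → F) (hY0 : ∀ v, x v = 0 → Y v = 0)
    (hY : ∀ v, x v ≠ 0 → Y v = (lmo xt (e v - τ (e v)) : Fˣ))
    (φ : MvPolynomial V K) (M : Fin r → ℤ) (hφ : IsWeightedHomogeneous deg φ M)
    (h0 : aeval x φ = 0) : aeval Y φ = 0 := by
  classical
  -- the exponents of a monomial
  have hβ : ∀ s : V →₀ ℕ, (∀ v, s v ≠ 0 → x v ≠ 0) → coeff s φ ≠ 0 →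
      ∑ v, (s v : ℤ) • d v = M := by
    intro s hs hc
    have e0 : s.sum (fun i c => c • deg i) = ∑ v, s v • deg v :=
      Finsupp.sum_fintype s _ fun v => zero_smul _ _
    rw [← hφ hc, Finsupp.weight_apply, e0]
    refine Finset.sum_congr rfl fun v _ => ?_
    by_cases h : s v = 0
    · rw [h, Nat.cast_zero, zero_smul, zero_smul]
    · rw [hd v (hs v h), natCast_zsmul]
  have hsum : ∀ s : V →₀ ℕ, (fun v => (s v : ℤ)) = ∑ v, s v • e v := by
    intro s
    funext u
    rw [Finset.sum_apply, Finset.sum_eq_single u]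
    · rw [Pi.smul_apply, he1, nsmul_eq_mul, mul_one]
    · intro v _ hv
      rw [Pi.smul_apply, he0 v u hv.symm, smul_zero]
    · intro h
      exact absurd (Finset.mem_univ u) h
  have hgood : ∀ s : V →₀ ℕ, (∀ v, s v ≠ 0 → x v ≠ 0) →
      ∏ v, x v ^ s v = (∏ v, Y v ^ s v) * (lmo xt (τ fun v => (s v : ℤ)) : Fˣ) := by
    intro s hs
    have e1 : ∏ v, x v ^ s v = ((lmo xt fun v => (s v : ℤ) : Fˣ) : F) := by
      rw [lmo, Units.coe_prod]
      refine Finset.prod_congr rfl fun v _ => ?_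
      by_cases h : s v = 0
      · rw [h, pow_zero, Nat.cast_zero, zpow_zero, Units.val_one]
      · rw [zpow_natCast, Units.val_pow_eq_pow_val, hxt v (hs v h)]
    have e2 : ∏ v, Y v ^ s v = ((∏ v, lmo xt (e v - τ (e v)) ^ s v : Fˣ) : F) := by
      rw [Units.coe_prod]
      refine Finset.prod_congr rfl fun v _ => ?_
      by_cases h : s v = 0
      · rw [h, pow_zero, pow_zero, Units.val_one]
      · rw [hY v (hs v h), Units.val_pow_eq_pow_val]
    rw [e1, e2, ← lmo_sum, ← Units.val_mul, ← lmo_add]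
    refine congrArg (fun β => ((lmo xt β : Fˣ) : F)) ?_
    rw [hsum s, map_sum, ← Finset.sum_add_distrib]
    refine Finset.sum_congr rfl fun v _ => ?_
    rw [map_nsmul, nsmul_sub, sub_add_cancel]
  have hbad : ∀ s : V →₀ ℕ, ¬ (∀ v, s v ≠ 0 → x v ≠ 0) →
      ∏ v, x v ^ s v = 0 ∧ ∏ v, Y v ^ s v = 0 := by
    intro s hs
    push Not at hs
    obtain ⟨v, hv, hxv⟩ := hs
    exact ⟨Finset.prod_eq_zero (Finset.mem_univ v) (by rw [hxv, zero_pow hv]),
      Finset.prod_eq_zero (Finset.mem_univ v) (by rw [hY0 v hxv, zero_pow hv])⟩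
  obtain ⟨c, hc⟩ : ∃ c : Fˣ, ∀ s ∈ φ.support, ∏ v, x v ^ s v = (∏ v, Y v ^ s v) * (c : F) := by
    by_cases hex : ∃ s ∈ φ.support, ∀ v, s v ≠ 0 → x v ≠ 0
    · obtain ⟨s₀, hs₀, hg₀⟩ := hex
      refine ⟨lmo xt (τ fun v => (s₀ v : ℤ)), fun s hs => ?_⟩
      by_cases hg : ∀ v, s v ≠ 0 → x v ≠ 0
      · rw [hgood s hg]
        have h1 := hβ s hg (mem_support_iff.1 hs)
        have h2 := hβ s₀ hg₀ (mem_support_iff.1 hs₀)
        have h3 : τ ((fun v => (s v : ℤ)) - fun v => (s₀ v : ℤ)) = 0 := by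
          apply hτ
          simp only [Pi.sub_apply, sub_smul, Finset.sum_sub_distrib]
          rw [h1, h2, sub_self]
        rw [map_sub, sub_eq_zero] at h3
        rw [h3]
      · obtain ⟨h1, h2⟩ := hbad s hg
        rw [h1, h2, zero_mul]
    · push Not at hex
      refine ⟨1, fun s hs => ?_⟩
      obtain ⟨h1, h2⟩ := hbad s fun h => by
        obtain ⟨v, hv, hv'⟩ := hex s hs
        exact h v hv hv'
      rw [h1, h2, zero_mul]
  have h5 : aeval x φ = aeval Y φ * (c : F) := by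
    rw [aeval_def, aeval_def, eval₂_eq', eval₂_eq', Finset.sum_mul]
    refine Finset.sum_congr rfl fun s hs => ?_
    rw [hc s hs, mul_assoc]
  rw [h0] at h5
  exact (mul_eq_zero.1 h5.symm).resolve_right c.ne_zero

end mono

theorem pf_PTS (hE4 : T_E4.{u}) : T_PTS.{u} := by
  classical
  intro k _ _ _ V κ _ r q nb F _ _ deg L A₀ Bl p φ M x w hGr hp hφ hx hw hw0 hN O hO ht
  by_contra hcon
  have h1 : ∀ f : Ez (LaurentSeries k) deg x, f ≠ 0 →
      ¬ (algebraMap (LaurentSeries k) (Ez (LaurentSeries k) deg x) (HahnSeries.single 1 1) *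
        f ^ p ∈ O ∧
      (algebraMap (LaurentSeries k) (Ez (LaurentSeries k) deg x) (HahnSeries.single 1 1) *
        f ^ p)⁻¹ ∈ O) := fun f hf h => hcon ⟨f, hf, h⟩
  -- the nonzero coordinates
  obtain ⟨xt, hxt, hx0⟩ : ∃ xt : V → Fˣ, (∀ v, x v ≠ 0 → (xt v : F) = x v) ∧
      ∀ v, x v = 0 → xt v = 1 :=
    ⟨fun v => if h : x v = 0 then 1 else Units.mk0 (x v) h, fun v hv => by
      change ((if h : x v = 0 then 1 else Units.mk0 (x v) h : Fˣ) : F) = x v
      rw [dif_neg hv]
      rfl, fun v hv => dif_pos hv⟩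
  obtain ⟨d, hd, hd0⟩ : ∃ d : V → Fin r → ℤ, (∀ v, x v ≠ 0 → d v = deg v) ∧
      ∀ v, x v = 0 → d v = 0 :=
    ⟨fun v => if x v = 0 then 0 else deg v, fun v hv => if_neg hv, fun v hv => if_pos hv⟩
  obtain ⟨τ, hτ1, hτ2⟩ := exists_prj d
  obtain ⟨e, he1, he0⟩ : ∃ e : V → V → ℤ, (∀ v, e v v = 1) ∧ ∀ v u, u ≠ v → e v u = 0 :=
    ⟨fun v u => if u = v then 1 else 0, fun v => if_pos rfl, fun v u h => if_neg h⟩
  have hmem : ∀ v, ((lmo xt (e v - τ (e v)) : Fˣ) : F) ∈ Ez (LaurentSeries k) deg x := by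
    intro v
    refine lmo_mem deg x xt hxt hx0 d hd hd0 _ ?_
    simp only [Pi.sub_apply, sub_smul, Finset.sum_sub_distrib]
    rw [hτ1, sub_self]
  obtain ⟨y, hy⟩ : ∃ y : V → Ez (LaurentSeries k) deg x,
      ∀ v, (y v : F) = ((lmo xt (e v - τ (e v)) : Fˣ) : F) := ⟨fun v => ⟨_, hmem v⟩, fun _ => rfl⟩
  have hy0 : ∀ v, y v ≠ 0 := by
    intro v h
    have h2 := hy v
    rw [h] at h2
    exact Units.ne_zero _ h2.symm
  -- the points
  obtain ⟨K', _, _, _, hK', z', hz'⟩ := hE4 k (Ez (LaurentSeries k) deg x) p O hp hO ht h1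
    (Fintype.card (V ⊕ V)) (fun i => Sum.elim y (fun v => (y v)⁻¹) ((Fintype.equivFin _).symm i))
  obtain ⟨z, hz⟩ : ∃ z : V ⊕ V → K', ∀ P : MvPolynomial (V ⊕ V) (LaurentSeries k),
      aeval (Sum.elim y fun v => (y v)⁻¹) P = 0 → aeval z P = 0 := by
    refine ⟨z' ∘ Fintype.equivFin _, fun P hP => ?_⟩
    have h2 := hz' (rename (Fintype.equivFin _) P) (by
      rw [aeval_rename]
      have h3 : (fun i => Sum.elim y (fun v => (y v)⁻¹) ((Fintype.equivFin (V ⊕ V)).symm i)) ∘
          (Fintype.equivFin (V ⊕ V)) = Sum.elim y fun v => (y v)⁻¹ := by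
        funext i
        simp
      rw [h3]
      exact hP)
    rw [aeval_rename] at h2
    exact h2
  have hz0 : ∀ v, z (Sum.inl v) ≠ 0 := by
    intro v h
    have h2 := hz (X (Sum.inl v) * X (Sum.inr v) - 1) (by
      rw [map_sub, map_mul, map_one, aeval_X, aeval_X, Sum.elim_inl, Sum.elim_inr,
        mul_inv_cancel₀ (hy0 v), sub_self])
    rw [map_sub, map_mul, map_one, aeval_X, aeval_X, h, zero_mul, zero_sub] at h2
    exact one_ne_zero (neg_eq_zero.1 h2)
  refine hN K' hK' (fun v => if x v = 0 then 0 else z (Sum.inl v)) (fun i => ?_) fun i => ?_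
  · -- the equations
    have h2 : aeval (fun v => if x v = 0 then (0 : F) else (y v : F)) (φ i) = 0 := by
      refine lmo_zer deg x xt hxt d hd τ hτ2 e he1 he0 _ (fun v hv => if_pos hv) (fun v hv => ?_)
        (φ i) (M i) (hφ i) (hx i)
      rw [if_neg hv, hy]
    have h3 : aeval (Sum.elim y fun v => (y v)⁻¹) (aeval (fun v =>
        if x v = 0 then (0 : MvPolynomial (V ⊕ V) (LaurentSeries k)) else X (Sum.inl v))
        (φ i)) = 0 := by
      rw [← AlgHom.comp_apply, comp_aeval]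
      have h4 : (fun v => aeval (Sum.elim y fun v => (y v)⁻¹)
          (if x v = 0 then (0 : MvPolynomial (V ⊕ V) (LaurentSeries k)) else X (Sum.inl v))) =
          fun v => if x v = 0 then 0 else y v := by
        funext v
        by_cases h : x v = 0
        · rw [if_pos h, if_pos h, map_zero]
        · rw [if_neg h, if_neg h, aeval_X, Sum.elim_inl]
      rw [h4]
      apply (algebraMap (Ez (LaurentSeries k) deg x) F).injective
      rw [map_zero]
      refine Eq.trans ?_ h2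
      have h5 := congrArg (fun f => f (φ i)) (comp_aeval (R := LaurentSeries k)
        (fun v => if x v = 0 then (0 : Ez (LaurentSeries k) deg x) else y v)
        (Ez (LaurentSeries k) deg x).val)
      refine h5.trans ?_
      refine congrArg (fun f => aeval f (φ i)) ?_
      funext v
      by_cases h : x v = 0
      · rw [if_pos h, if_pos h, map_zero]
      · rw [if_neg h, if_neg h]
        rfl
    have h6 := hz _ h3
    rw [← AlgHom.comp_apply, comp_aeval] at h6
    refine Eq.trans ?_ h6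
    refine congrArg (fun f => aeval f (φ i)) ?_
    funext v
    by_cases h : x v = 0
    · rw [if_pos h, if_pos h, map_zero]
    · rw [if_neg h, if_neg h, aeval_X]
  · -- the blocks
    obtain ⟨g, hg, rfl⟩ := hw
    have hg' : IsWeightedHomogeneous deg g A₀ := hg
    have h2 : ∃ s ∈ g.support, ∏ v, x v ^ s v ≠ 0 := by
      by_contra hno
      push Not at hno
      apply hw0
      change aeval x g = 0
      rw [aeval_def, eval₂_eq']
      refine Finset.sum_eq_zero fun s hs => ?_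
      rw [hno s hs, mul_zero]
    obtain ⟨s, hs, hs0⟩ := h2
    obtain ⟨v, hv, hsv⟩ := hGr.2.2.2.2 s (hg' (mem_support_iff.1 hs)) i
    refine ⟨v, hv, ?_⟩
    have hxv : x v ≠ 0 := by
      intro h
      apply hs0
      exact Finset.prod_eq_zero (Finset.mem_univ v) (by rw [h, zero_pow hsv])
    rw [if_neg hxv]
    exact hz0 v

end Pool.Agent.H89.IX
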