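import Pool.Agent.H39.IX.Targets2

/-!
# MP_323167_an, row NPR: the normalisers are groups
-/

set_option autoImplicit false

open scoped InnerProductSpace Topology
open Filter Finset Pool.Agent.H80.G2 Pool.Agent.H39.IX

namespace Pool.Agent.H89.IX

section

variable {H : Type} [NormedAddCommGroup H] [InnerProductSpace ℂ H] [CompleteSpace H]

lemma canc {u : H →L[ℂ] H} (h : star u * u = 1) (x : H →L[ℂ] H) : star u * (u * x) = x := by
  rw [← mul_assoc, h, one_mul]

lemma canc' {u : H →L[ℂ] H} (h : u * star u = 1) (x : H →L[ℂ] H) : u * (star u * x) = x := by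
  rw [← mul_assoc, h, one_mul]

lemma uni_one (P : VonNeumannAlgebra H) : Uni P 1 :=
  ⟨one_mem P, by rw [star_one, mul_one], by rw [star_one, mul_one]⟩

lemma uni_star {P : VonNeumannAlgebra H} {u : H →L[ℂ] H} (h : Uni P u) : Uni P (star u) :=
  ⟨star_mem h.1, by rw [star_star]; exact h.2.2, by rw [star_star]; exact h.2.1⟩

lemma uni_mul {P : VonNeumannAlgebra H} {u v : H →L[ℂ] H} (h : Uni P u) (k : Uni P v) :
    Uni P (u * v) := by
  refine ⟨mul_mem h.1 k.1, ?_, ?_⟩
  · simp only [star_mul, mul_assoc, canc h.2.1, k.2.1]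
  · simp only [star_mul, mul_assoc, canc' k.2.2, h.2.2]

lemma nor_one (P A : VonNeumannAlgebra H) : Nor P A 1 :=
  ⟨uni_one P, fun a ha => by rwa [star_one, mul_one, one_mul],
    fun a ha => by rwa [star_one, mul_one, one_mul]⟩

lemma nor_star {P A : VonNeumannAlgebra H} {u : H →L[ℂ] H} (h : Nor P A u) : Nor P A (star u) :=
  ⟨uni_star h.1, fun a ha => by rw [star_star]; exact h.2.2 a ha,
    fun a ha => by rw [star_star]; exact h.2.1 a ha⟩

lemma nor_mul {P A : VonNeumannAlgebra H} {u v : H →L[ℂ] H} (h : Nor P A u) (k : Nor P A v) :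
    Nor P A (u * v) := by
  refine ⟨uni_mul h.1 k.1, fun a ha => ?_, fun a ha => ?_⟩
  · have h1 := h.2.1 _ (k.2.1 a ha)
    simp only [star_mul, mul_assoc] at h1 ⊢
    exact h1
  · have h1 := k.2.2 _ (h.2.2 a ha)
    simp only [star_mul, mul_assoc] at h1 ⊢
    exact h1

/-- the key fact -/
lemma com_key {P A : VonNeumannAlgebra H} {G : ℕ → Finset (H →L[ℂ] H)} {v u : H →L[ℂ] H}
    (hu : Nor P A u) (h : ∀ g, InG G g → v * g * star v = u * g * star u) (hv : UH v) :
    Com G (star u * v) := by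
  intro g hg
  have h1 : v * g = u * g * star u * v := by
    rw [← h g hg, mul_assoc (v * g), hv.1, mul_one]
  calc g * (star u * v) = star u * (u * g * star u * v) := by
        simp only [mul_assoc, canc hu.1.2.1]
    _ = star u * (v * g) := by rw [h1]
    _ = star u * v * g := by rw [mul_assoc]

lemma act_eq {P A : VonNeumannAlgebra H} {G : ℕ → Finset (H →L[ℂ] H)} {v u : H →L[ℂ] H}
    (hA : ∀ a ∈ A, ∀ k, Com G k → a * k = k * a)
    (hu : Nor P A u) (h : ∀ g, InG G g → v * g * star v = u * g * star u) (hv : UH v)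
    (a : H →L[ℂ] H) (ha : a ∈ A) : v * a * star v = u * a * star u := by
  have hk := hA a ha _ (com_key hu h hv)
  calc v * a * star v = u * ((star u * v) * a) * star v := by
        simp only [mul_assoc, canc' hu.1.2.2]
    _ = u * (a * (star u * v)) * star v := by rw [hk]
    _ = u * a * star u := by simp only [mul_assoc, hv.2, mul_one]

lemma act_eq' {P A : VonNeumannAlgebra H} {G : ℕ → Finset (H →L[ℂ] H)} {v u : H →L[ℂ] H}
    (hA : ∀ a ∈ A, ∀ k, Com G k → a * k = k * a)
    (hu : Nor P A u) (h : ∀ g, InG G g → v * g * star v = u * g * star u) (hv : UH v)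
    (b : H →L[ℂ] H) (hb : b ∈ A) : star v * b * v = star u * b * u := by
  have hk := hA _ (hu.2.2 b hb) _ (com_key hu h hv)
  calc star v * b * v = star v * (u * ((star u * b * u) * (star u * v))) := by
        simp only [mul_assoc, canc' hu.1.2.2]
    _ = star v * (u * ((star u * v) * (star u * b * u))) := by rw [hk]
    _ = star u * b * u := by
        simp only [mul_assoc, canc' hu.1.2.2, canc hv.1]

end

theorem pf_NPR : T_NPR := by
  intro H _ _ _ M N P A w G ξ ζ hS
  have hA : ∀ a ∈ A, ∀ k, Com G k → a * k = k * a := fun a ha k hk => (hS.gen a).1 ha k hk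
  have hGA : ∀ g, InG G g → g ∈ A := fun g hg => (hS.gen g).2 fun y hy => hy g hg
  refine ⟨⟨nor_one P A, fun u hu => nor_star hu, fun u v hu hv => nor_mul hu hv⟩,
    ⟨?_, ?_, ?_⟩, ?_, ?_, ?_⟩
  · exact ⟨uni_one N, 1, nor_one P A, fun g _ => rfl⟩
  · rintro v ⟨hv, u, hu, h⟩
    refine ⟨uni_star hv, star u, nor_star hu, fun g hg => ?_⟩
    rw [star_star, star_star]
    exact act_eq' hA hu h ⟨hv.2.1, hv.2.2⟩ g (hGA g hg)
  · rintro v1 v2 ⟨hv1, u1, hu1, h1⟩ ⟨hv2, u2, hu2, h2⟩
    refine ⟨uni_mul hv1 hv2, u1 * u2, nor_mul hu1 hu2, fun g hg => ?_⟩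
    calc v1 * v2 * g * star (v1 * v2) = v1 * (v2 * g * star v2) * star v1 := by
          simp only [star_mul, mul_assoc]
      _ = v1 * (u2 * g * star u2) * star v1 := by rw [h2 g hg]
      _ = u1 * (u2 * g * star u2) * star u1 :=
          act_eq hA hu1 h1 ⟨hv1.2.1, hv1.2.2⟩ _ (hu2.2.1 g (hGA g hg))
      _ = u1 * u2 * g * star (u1 * u2) := by
          simp only [star_mul, mul_assoc]
  · exact fun v u hu h hv => com_key hu h hv
  · intro v hv hc
    refine ⟨hv, 1, nor_one P A, fun g hg => ?_⟩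
    rw [← hc g hg, mul_assoc, hv.2.2, star_one, mul_one, mul_one, one_mul]
  · intro u k hu hk g hg
    have h1 := hA _ (hu.2.1 g (hGA g hg)) k hk
    calc g * (star u * k * u) = star u * ((u * g * star u) * k) * u := by
          simp only [mul_assoc, canc hu.1.2.1]
      _ = star u * (k * (u * g * star u)) * u := by rw [h1]
      _ = star u * k * u * g := by
          simp only [mul_assoc, hu.1.2.1, mul_one]

end Pool.Agent.H89.IX
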